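import Pool.Agent.Q98.SPN.Stm

/-!
# Project SPN, job COVL
-/

set_option autoImplicit false

open scoped Matrix.Norms.L2Operator Matrix
open Finset

namespace Pool.Agent.Q124.SPN

open Pool.Agent.Q98.SPN
open Pool.Agent.H172R2.GS (sg XX HAM_ok)

/-- **Job COVL.** -/
theorem COVL_ok (h1 : S_DEC) (h2 : S_TKN) : S_COVL := by
  intro ι _ _ d m κ K N hd hm hκ hN hK Y hY
  have hm0 : (0 : ℝ) < m := by exact_mod_cast hm
  have hκ0 : (0 : ℝ) < κ := by exact_mod_cast (by omega : 0 < κ)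
  have hs2 : sc m κ ^ 2 = 100 * Real.exp 1 * (2 * Real.exp 1 * κ * m) := by
    unfold sc
    rw [Real.sq_sqrt (by positivity)]
    have : Real.exp 2 = Real.exp 1 * Real.exp 1 := by
      rw [← Real.exp_add]
      norm_num
    rw [this]
    ring
  have hs : 0 < sc m κ := by
    unfold sc
    exact Real.sqrt_pos.2 (by positivity)
  have hd1 : ∀ i, (1 : ℝ) ≤ d i := fun i => by exact_mod_cast hd i
  obtain ⟨M, hM⟩ : ∃ M, M = 2 * Real.exp 1 * κ * m := ⟨_, rfl⟩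
  have hM0 : 0 < M := by rw [hM]; positivity
  rw [← hM] at hK hY hs2
  have hterm : ∀ i, tk κ (Y i) ≤ (d i : ℝ) * tk κ (Y i) := by
    intro i
    have := h2 (d i) κ (Y i)
    nlinarith [hd1 i]
  have hlt : ∀ i, tk κ (Y i) < (4 ^ K * sc m κ ^ 2) ^ κ := by
    intro i
    have h3 : (d i : ℝ) * tk κ (Y i) ≤ ∑ i, (d i : ℝ) * tk κ (Y i) :=
      Finset.single_le_sum (f := fun i => (d i : ℝ) * tk κ (Y i))
        (fun j _ => mul_nonneg (Nat.cast_nonneg _) (h2 _ _ _)) (Finset.mem_univ i)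
    linarith [hterm i]
  choose r W V h3 h4 h5 using fun i => h1 (d i) (Y i) (sc m κ) K κ hs (by omega) (hlt i)
  refine ⟨fun k i => r i k, fun k i => W i k, fun k i => V i k, h3, fun k i => h4 i k, ?_⟩
  intro k hk
  unfold qq
  refine Nat.le_floor ?_
  push_cast
  obtain ⟨S, hS⟩ : ∃ S : ℝ, S = ∑ i, (d i : ℝ) * r i k := ⟨_, rfl⟩
  rw [← hS]
  have h6 : S * (4 ^ k * sc m κ ^ 2) ^ κ ≤ 2 * N * M ^ κ := by
    refine le_trans ?_ hY
    rw [hS, Finset.sum_mul]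
    refine Finset.sum_le_sum fun i _ => ?_
    rw [mul_assoc]
    refine mul_le_mul_of_nonneg_left ?_ (Nat.cast_nonneg _)
    refine le_trans ?_ (h5 i)
    exact Finset.single_le_sum (f := fun k => (r i k : ℝ) * (4 ^ k * sc m κ ^ 2) ^ κ)
      (fun j _ => by positivity) hk
  have h7 : (4 ^ k * sc m κ ^ 2) ^ κ = ((4 : ℝ) ^ k) ^ κ * 100 ^ κ * Real.exp κ * M ^ κ := by
    rw [hs2, mul_pow, mul_pow, mul_pow]
    have : Real.exp 1 ^ κ = Real.exp κ := by
      rw [← Real.exp_nat_mul, mul_one]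
    rw [this]
    ring
  have hMκ : 0 < M ^ κ := by positivity
  have h8 : S * (((4 : ℝ) ^ k) ^ κ * 100 ^ κ) ≤ 2 * m := by
    have e1 : (S * (((4 : ℝ) ^ k) ^ κ * 100 ^ κ)) * (Real.exp κ * M ^ κ) ≤ (2 * m) * (Real.exp κ * M ^ κ) := by
      calc (S * (((4 : ℝ) ^ k) ^ κ * 100 ^ κ)) * (Real.exp κ * M ^ κ) =
          S * (4 ^ k * sc m κ ^ 2) ^ κ := by rw [h7]; ring
        _ ≤ 2 * N * M ^ κ := h6
        _ ≤ 2 * (m * Real.exp κ) * M ^ κ := by
          exact mul_le_mul_of_nonneg_right (by linarith) hMκ.le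
        _ = (2 * m) * (Real.exp κ * M ^ κ) := by ring
    exact le_of_mul_le_mul_right e1 (by positivity)
  have hS0 : 0 ≤ S := by
    rw [hS]
    exact Finset.sum_nonneg fun i _ => by positivity
  have h9 : (16 : ℝ) ^ k ≤ ((4 : ℝ) ^ k) ^ κ := by
    have : (16 : ℝ) ^ k = ((4 : ℝ) ^ k) ^ 2 := by
      rw [← pow_mul, mul_comm, pow_mul]
      norm_num
    rw [this]
    exact pow_le_pow_right₀ (one_le_pow₀ (by norm_num)) hκ
  rw [le_div_iff₀ (by positivity)]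
  refine le_trans ?_ h8
  refine mul_le_mul_of_nonneg_left ?_ hS0
  exact mul_le_mul_of_nonneg_right h9 (by positivity)

end Pool.Agent.Q124.SPN
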