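import Pool.Agent.Q98.SPN.Stm

/-!
# Project SPN, job GF
-/

set_option autoImplicit false

open scoped Matrix.Norms.L2Operator Matrix
open Finset

namespace Pool.Agent.Q124.SPN

open Pool.Agent.Q98.SPN Pool.Agent.H172R2.GS

theorem log_ten_ninth : Real.log (10 / 9) ≤ 0.1055 := by
  rw [Real.log_le_iff_le_exp (by norm_num)]
  have h1 := Real.quadratic_le_exp_of_nonneg (x := 0.05275) (by norm_num)
  have h2 : Real.exp 0.1055 = Real.exp 0.05275 * Real.exp 0.05275 := by
    rw [← Real.exp_add]
    norm_num
  rw [h2]
  have h3 : (1.0541 : ℝ) ≤ Real.exp 0.05275 := by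
    refine le_trans ?_ h1
    norm_num
  nlinarith

/-- **Job GF.** -/
theorem GF_ok : S_GF := by
  intro N hN
  have hc : ∀ x : ℝ, 0 < x → x ≤ gf N x := by
    intro x hx
    unfold gf
    have h := le_max_left 1 (Real.log (N / x))
    nlinarith
  refine ⟨?_, ?_, hc, ?_⟩
  · intro x y hx hxy
    have hy : 0 < y := hx.trans_le hxy
    unfold gf
    obtain ⟨P, hP⟩ : ∃ P, P = max 1 (Real.log (N / y)) := ⟨_, rfl⟩
    have hP1 : 1 ≤ P := hP ▸ le_max_left _ _
    have hPL : Real.log (N / y) ≤ P := hP ▸ le_max_right _ _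
    have h1 : Real.log (N / x) = Real.log (N / y) + Real.log (y / x) := by
      rw [← Real.log_mul (by positivity) (by positivity)]
      congr 1
      field_simp
    have h2 : Real.log (y / x) ≤ y / x - 1 := Real.log_le_sub_one_of_pos (by positivity)
    have h3 : 1 ≤ y / x := (one_le_div hx).2 hxy
    have h4 : max 1 (Real.log (N / x)) ≤ y / x * P := by
      refine max_le ?_ ?_
      · nlinarith
      · rw [h1]
        nlinarith
    rw [← hP]
    calc x * max 1 (Real.log (N / x)) ≤ x * (y / x * P) := mul_le_mul_of_nonneg_left h4 hx.le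
      _ = y * P := by field_simp
  · intro x hx
    unfold gf
    obtain ⟨P, hP⟩ : ∃ P, P = max 1 (Real.log (N / x)) := ⟨_, rfl⟩
    have hP1 : 1 ≤ P := hP ▸ le_max_left _ _
    have hPL : Real.log (N / x) ≤ P := hP ▸ le_max_right _ _
    have h1 : Real.log (N / (9 / 10 * x)) = Real.log (N / x) + Real.log (10 / 9) := by
      rw [← Real.log_mul (by positivity) (by norm_num)]
      congr 1
      field_simp
    have h2 := log_ten_ninth
    have h4 : max 1 (Real.log (N / (9 / 10 * x))) ≤ 1.1055 * P := by
      refine max_le ?_ ?_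
      · nlinarith
      · rw [h1]
        nlinarith
    rw [← hP]
    have h5 : 9 / 10 * x * max 1 (Real.log (N / (9 / 10 * x))) ≤ 9 / 10 * x * (1.1055 * P) :=
      mul_le_mul_of_nonneg_left h4 (by positivity)
    have h6 : 0 < x * P := by positivity
    nlinarith
  · intro x hx
    have hx1 := hc x hx
    by_cases hL : Real.log (N / x) ≤ 2
    · refine ⟨2, le_rfl, ?_, ?_⟩
      · rw [Real.log_le_iff_le_exp (by positivity), div_le_iff₀ hx] at hL
        push_cast
        linarith
      · push_cast
        linarith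
    · push Not at hL
      refine ⟨⌈Real.log (N / x)⌉₊, ?_, ?_, ?_⟩
      · have : (1 : ℝ) < ⌈Real.log (N / x)⌉₊ := by linarith [Nat.le_ceil (Real.log (N / x))]
        have h2 : 1 < ⌈Real.log (N / x)⌉₊ := by exact_mod_cast this
        omega
      · have h1 := Nat.le_ceil (Real.log (N / x))
        rw [Real.log_le_iff_le_exp (by positivity), div_le_iff₀ hx] at h1
        linarith
      · have h1 := (Nat.ceil_lt_add_one (by linarith : 0 ≤ Real.log (N / x))).le
        have h2 : x * Real.log (N / x) ≤ gf N x := by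
          unfold gf
          exact mul_le_mul_of_nonneg_left (le_max_right _ _) hx.le
        nlinarith

end Pool.Agent.Q124.SPN
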