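import Pool.Agent.Q98.SPN.Stm

/-!
# Project SPN, job LOGC
-/

set_option autoImplicit false

open scoped Matrix.Norms.L2Operator Matrix
open Finset

namespace Pool.Agent.Q124.SPN

open Pool.Agent.Q98.SPN Pool.Agent.H172R2.GS

theorem log_five : Real.log 5 ≤ 1.61 := by
  have h1 : 3 * Real.log 5 = 7 * Real.log 2 + Real.log (125 / 128) := by
    have e1 : 3 * Real.log 5 = Real.log (5 ^ 3) := by rw [Real.log_pow]; norm_num
    have e2 : 7 * Real.log 2 = Real.log (2 ^ 7) := by rw [Real.log_pow]; norm_num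
    rw [e1, e2, ← Real.log_mul (by norm_num) (by norm_num)]
    norm_num
  have h2 : Real.log (125 / 128) ≤ 125 / 128 - 1 := Real.log_le_sub_one_of_pos (by norm_num)
  have h3 := Real.log_two_lt_d9
  linarith

theorem log_400 : Real.log 400 ≤ 6 := by
  rw [Real.log_le_iff_le_exp (by norm_num)]
  have h1 : Real.exp 6 = Real.exp 1 ^ 6 := by
    rw [← Real.exp_nat_mul]
    norm_num
  rw [h1]
  have h2 : (2.718 : ℝ) ≤ Real.exp 1 := by linarith [Real.exp_one_gt_d9]
  calc (400 : ℝ) ≤ 2.718 ^ 6 := by norm_num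
    _ ≤ Real.exp 1 ^ 6 := pow_le_pow_left₀ (by norm_num) h2 6

/-- **Job LOGC.** -/
theorem LOGC_ok : S_LOGC := by
  intro m κ k c B hc hcm hB h
  obtain ⟨q, hq⟩ : ∃ q, q = qq m κ k := ⟨_, rfl⟩
  rw [← hq] at h
  have hq1 : (q : ℝ) ≤ 2 * (m : ℝ) / (16 ^ k * 100 ^ κ) := by
    rw [hq]
    unfold qq
    exact Nat.floor_le (by positivity)
  obtain ⟨L, hL⟩ : ∃ L, L = Real.log 400 + k * Real.log 2 + κ := ⟨_, rfl⟩
  have hz : zz κ k = Real.exp (-L) := by
    unfold zz
    rw [Real.exp_neg, one_div, hL, Real.exp_add, Real.exp_add, Real.exp_log (by norm_num), Real.exp_nat_mul,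
      Real.exp_log (by norm_num)]
  have hz0 : 0 < zz κ k := by rw [hz]; exact Real.exp_pos _
  have h5 : (5 : ℝ) ^ (2 * (4 * k + 5) * q) = Real.exp ((2 * (4 * k + 5) * q) * Real.log 5) := by
    have := Real.exp_nat_mul (Real.log 5) (2 * (4 * k + 5) * q)
    rw [Real.exp_log (by norm_num)] at this
    rw [← this]
    push_cast
    ring_nf
  have hzq : zz κ k ^ q = Real.exp (-(q * L)) := by
    rw [hz, ← Real.exp_nat_mul]
    ring_nf
  rw [hzq, h5, ← Real.exp_add] at h
  have h6 : B ≤ Real.exp (q * L + (2 * zz κ k * c + (2 * (4 * k + 5) * q) * Real.log 5)) := by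
    rw [Real.exp_add (q * L)]
    have h7 := mul_le_mul_of_nonneg_left h (Real.exp_pos (q * L)).le
    have h8 : Real.exp (q * L) * (B * Real.exp (-(q * L))) = B := by
      rw [Real.exp_neg]
      field_simp
    rw [h8] at h7
    exact h7
  refine h6.trans (Real.exp_le_exp.2 ?_)
  have h9 : 2 * zz κ k * c ≤ m / (200 * 2 ^ k) := by
    have h10 : 2 * zz κ k * c ≤ 2 * zz κ k * (m * Real.exp κ) := by
      exact mul_le_mul_of_nonneg_left hcm (by positivity)
    refine h10.trans (le_of_eq ?_)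
    unfold zz
    have := (Real.exp_pos κ).ne'
    field_simp
    ring
  have hq0 : (0 : ℝ) ≤ q := Nat.cast_nonneg q
  have hk0 : (0 : ℝ) ≤ k := Nat.cast_nonneg k
  have h11 : q * L + (2 * (4 * k + 5) * q) * Real.log 5 ≤ q * (22.1 + 13.6 * k + κ) := by
    have e1 : L + (2 * (4 * k + 5)) * Real.log 5 ≤ 22.1 + 13.6 * k + κ := by
      rw [hL]
      have g1 := log_400
      have g2 : (k : ℝ) * Real.log 2 ≤ k * 0.7 := mul_le_mul_of_nonneg_left (by linarith [Real.log_two_lt_d9]) hk0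
      have g3 : (2 * (4 * (k : ℝ) + 5)) * Real.log 5 ≤ (2 * (4 * k + 5)) * 1.61 :=
        mul_le_mul_of_nonneg_left log_five (by positivity)
      linarith
    have := mul_le_mul_of_nonneg_left e1 hq0
    linarith
  have h12 : q * (22.1 + 13.6 * k + κ) ≤ (m : ℝ) / 16 ^ k * (2 * (22.1 + 13.6 * k + κ) / 100 ^ κ) := by
    have e2 : (0 : ℝ) ≤ 22.1 + 13.6 * k + κ := by positivity
    refine (mul_le_mul_of_nonneg_right hq1 e2).trans (le_of_eq ?_)
    field_simp
  linarith

end Pool.Agent.Q124.SPN
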