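import Pool.Agent.Q98.SPN.Stm

/-!
# Project SPN, job PC
-/

set_option autoImplicit false

open scoped Matrix.Norms.L2Operator Matrix
open Finset

namespace Pool.Agent.Q124.SPN

open Pool.Agent.Q98.SPN
open Pool.Agent.H172R2.GS (sg XX HAM_ok)

/-- **Job PC.** -/
theorem PC_ok (h1 : S_GOOD) (h2 : S_COV) : S_PC := by
  classical
  intro ι _ _ d κ N hd hdN hκ J _ _ A hJ hN hA
  obtain ⟨E, hE1, hE2⟩ := h1 ι d N hdN κ (by omega) J (by omega) A hA
  obtain ⟨F, hF1, hF2⟩ := h2 ι d (Fintype.card J) κ N hd hdN (by omega) hκ hN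
  have hch : ∀ ε ∈ E, ∃ Z ∈ F, ∀ i, ‖XX (fun g => A g i) ε - Z i‖ ≤ 3 * sc (Fintype.card J) κ :=
    fun ε hε => hF2 _ (hE2 ε hε)
  choose! f hf1 hf2 using hch
  obtain ⟨t, ht⟩ : ∃ t : ℝ, t = (2 : ℝ) ^ (Fintype.card J) / 2 * Real.exp (-(Fintype.card J : ℝ) / 50) := ⟨_, rfl⟩
  have ht0 : 0 < t := by rw [ht]; positivity
  have hfib : ∃ Z ∈ F, t ≤ ((E.filter fun ε => f ε = Z).card : ℝ) := by
    by_contra hcon
    push Not at hcon
    have hEne : E.Nonempty := by
      rw [← Finset.card_pos]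
      have : (0 : ℝ) < E.card := lt_of_lt_of_le (by positivity) hE1
      exact_mod_cast this
    obtain ⟨ε0, hε0⟩ := hEne
    have hFne : F.Nonempty := ⟨f ε0, hf1 ε0 hε0⟩
    have h3 : E.card = ∑ Z ∈ F, (E.filter fun ε => f ε = Z).card :=
      Finset.card_eq_sum_card_fiberwise fun ε hε => hf1 ε hε
    have h4 : (E.card : ℝ) < ∑ _Z ∈ F, t := by
      rw [h3]
      push_cast
      exact Finset.sum_lt_sum_of_nonempty hFne hcon
    rw [Finset.sum_const, nsmul_eq_mul] at h4
    have h5 : (F.card : ℝ) * t ≤ (2 : ℝ) ^ (Fintype.card J) / 2 := by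
      calc (F.card : ℝ) * t ≤ Real.exp ((Fintype.card J : ℝ) / 50) * t := mul_le_mul_of_nonneg_right hF1 ht0.le
        _ = (2 : ℝ) ^ (Fintype.card J) / 2 * (Real.exp ((Fintype.card J : ℝ) / 50) *
            Real.exp (-(Fintype.card J : ℝ) / 50)) := by rw [ht]; ring
        _ = (2 : ℝ) ^ (Fintype.card J) / 2 := by
          rw [← Real.exp_add, show (Fintype.card J : ℝ) / 50 + -(Fintype.card J : ℝ) / 50 = 0 by ring, Real.exp_zero,
            mul_one]
    linarith
  obtain ⟨Z, hZ, hZ2⟩ := hfib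
  rw [ht] at hZ2
  obtain ⟨a, ha, b, hb, hab⟩ := HAM_ok J (E.filter fun ε => f ε = Z) hJ hZ2
  rw [Finset.mem_filter] at ha hb
  have hsg : ∀ c : Bool, sg c = 1 ∨ sg c = -1 := by
    intro c
    unfold sg
    split_ifs
    · exact Or.inl rfl
    · exact Or.inr rfl
  refine ⟨fun g => (sg (a g) - sg (b g)) / 2, fun g => ?_, ?_, fun i => ?_⟩
  · show (sg (a g) - sg (b g)) / 2 = 0 ∨ (sg (a g) - sg (b g)) / 2 = 1 ∨ (sg (a g) - sg (b g)) / 2 = -1
    rcases hsg (a g) with h | h <;> rcases hsg (b g) with h' | h' <;> rw [h, h'] <;> norm_num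
  · refine hab.trans (mul_le_mul_of_nonneg_left ?_ (by norm_num))
    have : (univ.filter fun g => a g ≠ b g) ⊆ univ.filter fun g => (sg (a g) - sg (b g)) / 2 ≠ 0 := by
      intro g hg
      rw [Finset.mem_filter] at hg ⊢
      refine ⟨hg.1, ?_⟩
      have h3 := hg.2
      unfold sg
      cases ha' : a g <;> cases hb' : b g
      · rw [ha', hb'] at h3; exact absurd rfl h3
      · norm_num
      · norm_num
      · rw [ha', hb'] at h3; exact absurd rfl h3
    exact_mod_cast Finset.card_le_card this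
  · have h3 : ∑ g, (((sg (a g) - sg (b g)) / 2 : ℝ) : ℂ) • A g i =
        (1 / 2 : ℂ) • ((XX (fun g => A g i) a - Z i) - (XX (fun g => A g i) b - Z i)) := by
      rw [sub_sub_sub_cancel_right]
      unfold XX
      rw [← Finset.sum_sub_distrib, Finset.smul_sum]
      refine Finset.sum_congr rfl fun g _ => ?_
      rw [← sub_smul, smul_smul]
      congr 1
      push_cast
      ring
    have e1 : f a = Z := ha.2
    have e2 : f b = Z := hb.2
    have h4 := hf2 a ha.1 i
    have h5 := hf2 b hb.1 i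
    rw [e1] at h4
    rw [e2] at h5
    rw [h3, norm_smul]
    have h6 := norm_sub_le (XX (fun g => A g i) a - Z i) (XX (fun g => A g i) b - Z i)
    have h7 : ‖(1 / 2 : ℂ)‖ = 1 / 2 := by norm_num
    rw [h7]
    linarith

end Pool.Agent.Q124.SPN
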